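import Mathlib

open Set Filter Topology Function

namespace Pool.Agent.Results.MP_8dfbdc_an.Counter

noncomputable def g (x y z : ℝ) : ℝ :=
  z - (z * (x ^ 2 + y ^ 2 + z ^ 2) - 101 / 1000 * x ^ 3) / (2 * (1 + x ^ 2 + y ^ 2 + z ^ 2))

theorem ineq (x y z : ℝ) :
    |2 * x * z - 303 / 1000 * x ^ 2 * (1 + x ^ 2 + y ^ 2 + z ^ 2) + 202 / 1000 * x ^ 4| +
      |2 * y * z + 202 / 1000 * x ^ 3 * y| ≤
    x ^ 2 + y ^ 2 + 3 * z ^ 2 + (x ^ 2 + y ^ 2 + z ^ 2) ^ 2 + 202 / 1000 * x ^ 3 * z := by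
  have h1 := sq_nonneg (x ^ 2 + x * y)
  have h2 := sq_nonneg (x ^ 2 - x * y)
  have h3 := sq_nonneg (x ^ 2 + x * z)
  have h4 := sq_nonneg (x * y)
  have h5 := sq_nonneg (x * z)
  have h6 := sq_nonneg (y ^ 2 + z ^ 2)
  have h7 := sq_nonneg (x ^ 2)
  have h8 := sq_nonneg (y + z)
  have h9 := sq_nonneg (y - z)
  have h10 := sq_nonneg (x + 2 * z)
  have h11 := sq_nonneg (x - 2 * z)
  have h12 := sq_nonneg x
  rcases abs_cases (2 * x * z - 303 / 1000 * x ^ 2 * (1 + x ^ 2 + y ^ 2 + z ^ 2) +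
    202 / 1000 * x ^ 4) with ⟨h, -⟩ | ⟨h, -⟩ <;>
  rcases abs_cases (2 * y * z + 202 / 1000 * x ^ 3 * y) with ⟨h', -⟩ | ⟨h', -⟩ <;>
  rw [h, h'] <;> linarith

theorem lip (x y z a b c m : ℝ) (ha : |a| ≤ m) (hb : |b| ≤ m) (hc : |c| ≤ m) :
    |g (x + a) (y + b) (z + c) - g x y z| ≤ m := by
  have hd : ∀ (x a t : ℝ), HasDerivAt (fun t => x + t * a) a t := fun x a t => by
    simpa using ((hasDerivAt_id t).mul_const a).const_add x
  have := norm_image_sub_le_of_norm_deriv_le_segment_01' (C := m)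
    (f := fun t => g (x + t * a) (y + t * b) (z + t * c)) (fun t _ => HasDerivAt.hasDerivWithinAt
      ((hd z c t).sub ((((hd z c t).mul ((((hd x a t).pow 2).add ((hd y b t).pow 2)).add
        ((hd z c t).pow 2))).sub (((hd x a t).pow 3).const_mul (101 / 1000))).div
        ((((((hd x a t).pow 2).const_add 1).add ((hd y b t).pow 2)).add
        ((hd z c t).pow 2)).const_mul 2) (by positivity)))) fun t _ => by
    simp only [Pi.pow_apply, Pi.add_apply, Pi.mul_apply, Pi.sub_apply]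
    generalize x + t * a = x, y + t * b = y, z + t * c = z
    have h := ineq x y z
    set P := 2 * x * z - 303 / 1000 * x ^ 2 * (1 + x ^ 2 + y ^ 2 + z ^ 2) + 202 / 1000 * x ^ 4
      with hP
    set Q := 2 * y * z + 202 / 1000 * x ^ 3 * y with hQ
    set R := x ^ 2 + y ^ 2 + 3 * z ^ 2 + (x ^ 2 + y ^ 2 + z ^ 2) ^ 2 + 202 / 1000 * x ^ 3 * z
      with hR
    set D := 2 * (1 + x ^ 2 + y ^ 2 + z ^ 2) ^ 2 with hD
    have h0 : 0 < D := by positivity
    have h1 : 0 ≤ D - R := by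
      rw [hD, hR]
      nlinarith [sq_nonneg (x ^ 2 - x * z), sq_nonneg (x * y), sq_nonneg (x * z), sq_nonneg x,
        sq_nonneg y, sq_nonneg z, sq_nonneg (y ^ 2 + z ^ 2), sq_nonneg (x ^ 2)]
    refine le_of_eq_of_le (b := |((D - R) * c - P * a - Q * b) / D|) (congrArg _ ?_) ?_
    · rw [hD, hP, hQ, hR]; field_simp; ring
    rw [abs_div, abs_of_pos h0, div_le_iff₀ h0]
    refine (abs_sub _ _).trans ((add_le_add_left (abs_sub _ _) _).trans ?_)
    rw [abs_mul, abs_mul, abs_mul, abs_of_nonneg h1]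
    nlinarith [mul_le_mul_of_nonneg_left hc h1, mul_le_mul_of_nonneg_left ha (abs_nonneg P),
      mul_le_mul_of_nonneg_left hb (abs_nonneg Q), (abs_nonneg a).trans ha]
  simpa using this

/-- `M` is a `C^1` embedded submanifold near `p` -/
def SubmanifoldAt {n : ℕ} (M : Set (Fin n → ℝ)) (p : Fin n → ℝ) : Prop :=
  ∃ (ψ : OpenPartialHomeomorph (Fin n → ℝ) (Fin n → ℝ)) (k : ℕ), p ∈ ψ.source ∧
    ContDiffOn ℝ 1 ψ ψ.source ∧ ContDiffOn ℝ 1 ψ.symm ψ.target ∧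
    ψ '' (ψ.source ∩ M) = ψ.target ∩ {x | ∀ i : Fin n, k ≤ i → x i = 0}

theorem result : ∃ f : (Fin 3 → ℝ) → Fin 3 → ℝ, (∀ p q, ‖f p - f q‖ ≤ ‖p - q‖) ∧
    AnalyticOnNhd ℝ f univ ∧ ∃ p ∈ fixedPoints f, ¬ SubmanifoldAt (fixedPoints f) p := by
  set f : (Fin 3 → ℝ) → Fin 3 → ℝ := fun p => ![p 0, p 1, g (p 0) (p 1) (p 2)]
  have hF : ∀ p, p ∈ fixedPoints f ↔
      p 2 * (p 0 ^ 2 + p 1 ^ 2 + p 2 ^ 2) = 101 / 1000 * p 0 ^ 3 := fun p => by
    have : 2 * (1 + p 0 ^ 2 + p 1 ^ 2 + p 2 ^ 2) ≠ 0 := by positivity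
    simp [IsFixedPt, funext_iff, Fin.forall_fin_succ, f, g, this, sub_eq_zero]
  refine ⟨f, fun p q => (pi_norm_le_iff_of_nonneg (norm_nonneg _)).2 fun i => ?_,
    fun p _ => analyticAt_pi_iff.2 fun i => ?_, 0, (hF 0).2 (by simp), ?_⟩
  · have h := norm_le_pi_norm (p - q)
    fin_cases i
    · exact h 0
    · exact h 1
    · simpa [f] using lip (q 0) (q 1) (q 2) _ _ _ _ (h 0) (h 1) (h 2)
  · have h := fun i => analyticAt_pi_iff.1 (analyticAt_id (𝕜 := ℝ) (z := p)) i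
    fin_cases i
    · exact h 0
    · exact h 1
    · exact (h 2).sub ((((h 2).mul ((((h 0).pow 2).add ((h 1).pow 2)).add ((h 2).pow 2))).sub
        (analyticAt_const.mul ((h 0).pow 3))).div (analyticAt_const.mul (((analyticAt_const.add
        ((h 0).pow 2)).add ((h 1).pow 2)).add ((h 2).pow 2)))
        (show 2 * (1 + p 0 ^ 2 + p 1 ^ 2 + p 2 ^ 2) ≠ 0 by positivity))
  rintro ⟨ψ, k, s0, d1, d2, hM⟩
  set P : (Fin 3 → ℝ) →L[ℝ] Fin 3 → ℝ :=
    ContinuousLinearMap.pi fun i => if k ≤ i then 0 else ContinuousLinearMap.proj i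
  have hP : ∀ x ∈ ψ.source, x ∈ fixedPoints f → P (ψ x) = ψ x := fun x h1 h2 => funext fun i => by
    have := (hM.subset ⟨x, ⟨h1, h2⟩, rfl⟩).2 i
    by_cases h : k ≤ i <;> simp [P, h, this]
  have p0 := hP 0 s0 ((hF 0).2 (by simp))
  set r : (Fin 3 → ℝ) → Fin 3 → ℝ := fun x => ψ.symm (P (ψ x))
  have d3 : DifferentiableAt ℝ (fun x => P (ψ x)) 0 := P.differentiableAt.comp 0
    ((d1.contDiffAt (ψ.open_source.mem_nhds s0)).differentiableAt one_ne_zero)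
  have t0 : ψ.target ∈ 𝓝 (P (ψ 0)) := ψ.open_target.mem_nhds (p0.symm ▸ ψ.map_source s0)
  have h3 : DifferentiableAt ℝ r 0 :=
    ((d2.contDiffAt t0).differentiableAt one_ne_zero).comp 0 d3
  have h1 : ∀ᶠ x in 𝓝 0, r x ∈ fixedPoints f := by
    filter_upwards [d3.continuousAt.eventually_mem t0] with x hx
    obtain ⟨y, hy, e⟩ := hM.symm.subset ⟨hx, fun i hi => by simp [P, hi]⟩
    simp only [r, ← e, ψ.left_inv hy.1, hy.2]
  have h2 : ∀ x ∈ ψ.source, x ∈ fixedPoints f → r x = x := fun x a b => by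
    simp only [r, hP x a b, ψ.left_inv a]
  have ht : ∀ w : Fin 3 → ℝ, Tendsto (fun t : ℝ => t • w) (𝓝[≠] 0) (𝓝 0) := fun w =>
    (Continuous.tendsto' (by fun_prop) 0 0 (by simp)).mono_left nhdsWithin_le_nhds
  have hs : ∀ (t : ℝ) p, p ∈ fixedPoints f → t • p ∈ fixedPoints f := fun t p h => by
    rw [hF] at *
    simp only [Pi.smul_apply, smul_eq_mul]
    linear_combination t ^ 3 * h
  have h0 : r 0 = 0 := h2 0 s0 ((hF 0).2 (by simp))
  have key : ∀ w, Tendsto (fun t : ℝ => t⁻¹ • r (t • w)) (𝓝[≠] 0) (𝓝 (fderiv ℝ r 0 w)) := fun w => by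
    simpa [h0] using (h3.hasFDerivAt.hasLineDerivAt w).tendsto_slope_zero
  have k1 : ∀ w ∈ fixedPoints f, fderiv ℝ r 0 w = w := fun w hw =>
    tendsto_nhds_unique (key w) (tendsto_const_nhds.congr' (by
      filter_upwards [self_mem_nhdsWithin, (ht w).eventually_mem (ψ.open_source.mem_nhds s0)]
        with t ht h
      rw [h2 _ h (hs t w hw), inv_smul_smul₀ ht]))
  have k2 : IsClosed (fixedPoints f) := by
    rw [Set.ext hF]; exact isClosed_eq (by fun_prop) (by fun_prop)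
  have := k2.mem_of_tendsto (key (![10, 0, 1] + ![0, 1, 0]))
    (((ht _).eventually h1).mono fun t h => hs _ _ h)
  rw [map_add, k1 _ ((hF _).2 (by simp; norm_num)), k1 _ ((hF _).2 (by simp)), hF] at this
  simp at this
  norm_num at this

end Pool.Agent.Results.MP_8dfbdc_an.Counter
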